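import Mathlib

namespace Pool.Agent.Results.MP_dbbe21_pr.RankOfOptimalKernels

open Finset Matrix

/-- A *marginal kernel* on `[N]`: a real symmetric positive semidefinite matrix all of whose
eigenvalues lie in `[0,1]`. -/
def IsMarginalKernel {N : ℕ} (K : Matrix (Fin N) (Fin N) ℝ) : Prop :=
  K.PosSemidef ∧ ∃ h : K.IsHermitian, ∀ i, 0 ≤ h.eigenvalues i ∧ h.eigenvalues i ≤ 1

/-- The principal submatrix of `K` indexed by `S`. -/
def principal {N : ℕ} (K : Matrix (Fin N) (Fin N) ℝ) (S : Finset (Fin N)) :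
    Matrix {x // x ∈ S} {x // x ∈ S} ℝ :=
  K.submatrix Subtype.val Subtype.val

/-- `p` is the law of the determinantal point process with marginal kernel `K`: a probability
distribution on subsets of `[N]` such that `Pr[S ⊆ X] = det K_S` for every `S`. -/
structure IsDPPLaw {N : ℕ} (K : Matrix (Fin N) (Fin N) ℝ) (p : Finset (Fin N) → ℝ) : Prop where
  nonneg : ∀ S, 0 ≤ p S
  sum_eq_one : ∑ S, p S = 1
  incl : ∀ S, ∑ T ∈ univ.filter (fun T => S ⊆ T), p T = (principal K S).det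

/-- The likelihood of the law `p` on the training set `X` (a finite sequence of subsets). -/
def likelihood {N : ℕ} (p : Finset (Fin N) → ℝ) (X : List (Finset (Fin N))) : ℝ :=
  (X.map p).prod

/-- `K` is an optimal (maximum-likelihood) marginal kernel for the training set `X`. -/
def IsOptimal {N : ℕ} (K : Matrix (Fin N) (Fin N) ℝ) (X : List (Finset (Fin N))) : Prop :=
  IsMarginalKernel K ∧ ∃ p, IsDPPLaw K p ∧
    ∀ (K' : Matrix (Fin N) (Fin N) ℝ) (p' : Finset (Fin N) → ℝ),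
      IsMarginalKernel K' → IsDPPLaw K' p' → likelihood p' X ≤ likelihood p X

/-- The training set `∅, ∅, ∅, {0,1}, {0,2}, {1,2}` of subsets of the three-point ground set. -/
def training : List (Finset (Fin 3)) := [∅, ∅, ∅, {0, 1}, {0, 2}, {1, 2}]

/-! ### Determinants of principal submatrices -/

lemma det_principal_empty (K : Matrix (Fin 3) (Fin 3) ℝ) : (principal K ∅).det = 1 := by
  have : IsEmpty {x : Fin 3 // x ∈ (∅ : Finset (Fin 3))} :=
    ⟨fun x => absurd x.2 (Finset.notMem_empty _)⟩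
  exact Matrix.det_isEmpty

lemma det_principal_single (K : Matrix (Fin 3) (Fin 3) ℝ) (i : Fin 3) :
    (principal K {i}).det = K i i := by
  have hb : Function.Bijective
      (![⟨i, by simp⟩] : Fin 1 → {x : Fin 3 // x ∈ ({i} : Finset (Fin 3))}) := by
    constructor
    · intro a b _
      exact Subsingleton.elim a b
    · rintro ⟨x, hx⟩
      refine ⟨0, Subtype.ext ?_⟩
      exact (Finset.mem_singleton.1 hx).symm
  have h := Matrix.det_submatrix_equiv_self (Equiv.ofBijective _ hb) (principal K {i})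
  rw [← h, Matrix.det_fin_one]
  rfl

lemma det_principal_pair (K : Matrix (Fin 3) (Fin 3) ℝ) (i j : Fin 3) (hij : i ≠ j) :
    (principal K {i, j}).det = K i i * K j j - K i j * K j i := by
  have hb : Function.Bijective
      (![⟨i, by simp⟩, ⟨j, by simp⟩] : Fin 2 → {x : Fin 3 // x ∈ ({i, j} : Finset (Fin 3))}) := by
    constructor
    · intro a b hab
      fin_cases a <;> fin_cases b <;> simp_all [Ne.symm hij]
    · rintro ⟨x, hx⟩
      simp only [Finset.mem_insert, Finset.mem_singleton] at hx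
      rcases hx with rfl | rfl
      · exact ⟨0, rfl⟩
      · exact ⟨1, rfl⟩
  have h := Matrix.det_submatrix_equiv_self (Equiv.ofBijective _ hb) (principal K {i, j})
  rw [← h, Matrix.det_fin_two]
  rfl

lemma det_principal_univ (K : Matrix (Fin 3) (Fin 3) ℝ) :
    (principal K {0, 1, 2}).det = K.det := by
  have hb : Function.Bijective
      (fun i : Fin 3 => (⟨i, by fin_cases i <;> simp⟩ :
        {x : Fin 3 // x ∈ ({0, 1, 2} : Finset (Fin 3))})) := by
    constructor
    · intro a b hab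
      simpa using hab
    · rintro ⟨x, hx⟩
      exact ⟨x, rfl⟩
  have h := Matrix.det_submatrix_equiv_self (Equiv.ofBijective _ hb) (principal K {0, 1, 2})
  rw [← h]
  rfl

/-! ### The law in terms of the eigenvalues -/

lemma filt_univ : (univ.filter (fun T : Finset (Fin 3) => ({0, 1, 2} : Finset (Fin 3)) ⊆ T))
    = {{0, 1, 2}} := by decide
lemma filt_01 : (univ.filter (fun T : Finset (Fin 3) => ({0, 1} : Finset (Fin 3)) ⊆ T))
    = {{0, 1}, {0, 1, 2}} := by decide
lemma filt_02 : (univ.filter (fun T : Finset (Fin 3) => ({0, 2} : Finset (Fin 3)) ⊆ T))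
    = {{0, 2}, {0, 1, 2}} := by decide
lemma filt_12 : (univ.filter (fun T : Finset (Fin 3) => ({1, 2} : Finset (Fin 3)) ⊆ T))
    = {{1, 2}, {0, 1, 2}} := by decide
lemma filt_0 : (univ.filter (fun T : Finset (Fin 3) => ({0} : Finset (Fin 3)) ⊆ T))
    = {{0}, {0, 1}, {0, 2}, {0, 1, 2}} := by decide
lemma filt_1 : (univ.filter (fun T : Finset (Fin 3) => ({1} : Finset (Fin 3)) ⊆ T))
    = {{1}, {0, 1}, {1, 2}, {0, 1, 2}} := by decide
lemma filt_2 : (univ.filter (fun T : Finset (Fin 3) => ({2} : Finset (Fin 3)) ⊆ T))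
    = {{2}, {0, 2}, {1, 2}, {0, 1, 2}} := by decide
lemma univ_eq : (univ : Finset (Finset (Fin 3)))
    = {∅, {0}, {1}, {2}, {0, 1}, {0, 2}, {1, 2}, {0, 1, 2}} := by decide

lemma law_values {K : Matrix (Fin 3) (Fin 3) ℝ} {p : Finset (Fin 3) → ℝ} (hp : IsDPPLaw K p)
    (h : K.IsHermitian) :
    ∃ x y z : ℝ, x = h.eigenvalues 0 ∧ y = h.eigenvalues 1 ∧ z = h.eigenvalues 2 ∧
      p ∅ = (1 - x) * (1 - y) * (1 - z) ∧
      p {0, 1} + p {0, 2} + p {1, 2} = x * y + x * z + y * z - 3 * (x * y * z) ∧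
      K.det = x * y * z := by
  refine ⟨_, _, _, rfl, rfl, rfl, ?_⟩
  set x := h.eigenvalues 0
  set y := h.eigenvalues 1
  set z := h.eigenvalues 2
  have e3 : K.det = x * y * z := by
    rw [h.det_eq_prod_eigenvalues, Fin.prod_univ_three]
    simp [x, y, z]
  have e1 : K 0 0 + K 1 1 + K 2 2 = x + y + z := by
    have := h.trace_eq_sum_eigenvalues
    rw [Matrix.trace_fin_three, Fin.sum_univ_three] at this
    simpa [x, y, z] using this
  have e4 : (1 - K).det = (1 - x) * (1 - y) * (1 - z) := by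
    have h1 : K.charpoly.eval 1 = (1 - x) * (1 - y) * (1 - z) := by
      rw [h.charpoly_eq, Fin.prod_univ_three]
      simp [x, y, z]
    rw [Matrix.eval_charpoly] at h1
    rw [← h1]
    simp
  have huniv := hp.incl {0, 1, 2}
  have h01 := hp.incl {0, 1}
  have h02 := hp.incl {0, 2}
  have h12 := hp.incl {1, 2}
  have h0 := hp.incl {0}
  have h1 := hp.incl {1}
  have h2 := hp.incl {2}
  have hs := hp.sum_eq_one
  rw [filt_univ, det_principal_univ, Finset.sum_singleton] at huniv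
  rw [filt_01, det_principal_pair K 0 1 (by decide), Finset.sum_pair (by decide)] at h01
  rw [filt_02, det_principal_pair K 0 2 (by decide), Finset.sum_pair (by decide)] at h02
  rw [filt_12, det_principal_pair K 1 2 (by decide), Finset.sum_pair (by decide)] at h12
  rw [filt_0, det_principal_single, Finset.sum_insert (by decide), Finset.sum_insert (by decide),
    Finset.sum_pair (by decide)] at h0
  rw [filt_1, det_principal_single, Finset.sum_insert (by decide), Finset.sum_insert (by decide),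
    Finset.sum_pair (by decide)] at h1
  rw [filt_2, det_principal_single, Finset.sum_insert (by decide), Finset.sum_insert (by decide),
    Finset.sum_pair (by decide)] at h2
  rw [univ_eq, Finset.sum_insert (by decide), Finset.sum_insert (by decide),
    Finset.sum_insert (by decide), Finset.sum_insert (by decide), Finset.sum_insert (by decide),
    Finset.sum_insert (by decide), Finset.sum_pair (by decide)] at hs
  have hd : K.det = K 0 0 * K 1 1 * K 2 2 - K 0 0 * K 1 2 * K 2 1 - K 0 1 * K 1 0 * K 2 2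
      + K 0 1 * K 1 2 * K 2 0 + K 0 2 * K 1 0 * K 2 1 - K 0 2 * K 1 1 * K 2 0 := by
    rw [Matrix.det_fin_three]
  have hd1 : (1 - K).det = (1 - K 0 0) * (1 - K 1 1) * (1 - K 2 2)
      - (1 - K 0 0) * K 1 2 * K 2 1 - K 0 1 * K 1 0 * (1 - K 2 2)
      - K 0 1 * K 1 2 * K 2 0 - K 0 2 * K 1 0 * K 2 1 - K 0 2 * (1 - K 1 1) * K 2 0 := by
    rw [Matrix.det_fin_three]
    simp [Matrix.sub_apply]
    ring
  refine ⟨?_, ?_, e3⟩
  · linear_combination hs - h0 - h1 - h2 + h01 + h02 + h12 - huniv + e4 - hd1 - hd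
  · linear_combination h01 + h02 + h12 - 3 * huniv - 2 * e3 + e4 - hd1 - hd + e1

/-! ### Polynomial inequalities -/

lemma amgm3 {a b c : ℝ} (ha : 0 ≤ a) (hb : 0 ≤ b) (hc : 0 ≤ c) :
    27 * (a * b * c) ≤ (a + b + c) ^ 3 := by
  nlinarith [mul_nonneg ha (sq_nonneg (b - c)), mul_nonneg hb (sq_nonneg (a - c)),
    mul_nonneg hc (sq_nonneg (a - b)), mul_nonneg ha (sq_nonneg (a - b)),
    mul_nonneg ha (sq_nonneg (a - c)), mul_nonneg hb (sq_nonneg (b - a)),
    mul_nonneg hb (sq_nonneg (b - c)), mul_nonneg hc (sq_nonneg (c - a)),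
    mul_nonneg hc (sq_nonneg (c - b))]

/-- The symmetric two-variable case. -/
lemma two_var {x y : ℝ} (hx : 0 ≤ x) (hx1 : x ≤ 1) (hy : 0 ≤ y) (hy1 : y ≤ 1) :
    (1 - x) ^ 2 * (1 - y) * (x ^ 2 + 2 * x * y - 3 * x ^ 2 * y) ≤ 16 / 243 := by
  have hfac : (1 - x) ^ 2 * (1 - y) * (x ^ 2 + 2 * x * y - 3 * x ^ 2 * y)
      = (1 - x) ^ 2 * x * ((1 - y) * (x + y * (2 - 3 * x))) := by ring
  rw [hfac]
  have hc : 0 ≤ (1 - x) ^ 2 * x := mul_nonneg (sq_nonneg _) hx
  rcases le_or_gt x (1 / 2) with h | h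
  · have h2 : 0 < 2 - 3 * x := by linarith
    have hab : (2 - 3 * x) * ((1 - y) * (x + y * (2 - 3 * x))) ≤ (1 - x) ^ 2 := by
      nlinarith [sq_nonneg ((2 - 3 * x) * (1 - y) - (x + y * (2 - 3 * x)))]
    have h3 : (2 - 3 * x) * ((1 - x) ^ 2 * x * ((1 - y) * (x + y * (2 - 3 * x))))
        ≤ (1 - x) ^ 2 * x * (1 - x) ^ 2 := by
      calc (2 - 3 * x) * ((1 - x) ^ 2 * x * ((1 - y) * (x + y * (2 - 3 * x))))
          = (1 - x) ^ 2 * x * ((2 - 3 * x) * ((1 - y) * (x + y * (2 - 3 * x)))) := by ring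
        _ ≤ _ := mul_le_mul_of_nonneg_left hab hc
    have hC : 0 ≤ -27 * x ^ 3 + 90 * x ^ 2 - 99 * x + 32 := by
      nlinarith [mul_nonneg hx (sub_nonneg.2 h), mul_nonneg (mul_nonneg hx hx) (sub_nonneg.2 h),
        sq_nonneg (x - 1 / 2)]
    have h4 : 243 * ((1 - x) ^ 2 * x * (1 - x) ^ 2) ≤ 16 * (2 - 3 * x) := by
      nlinarith [mul_nonneg (sq_nonneg (3 * x - 1)) hC]
    have h5 : (2 - 3 * x) * ((1 - x) ^ 2 * x * ((1 - y) * (x + y * (2 - 3 * x))))
        ≤ (2 - 3 * x) * (16 / 243) := by linarith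
    exact le_of_mul_le_mul_left h5 h2
  · have h1 : (1 - y) * (x + y * (2 - 3 * x)) ≤ x := by
      have : 0 ≤ y * (y * (2 - 3 * x) - (2 - 4 * x)) := by
        apply mul_nonneg hy
        rcases le_or_gt 0 (2 - 3 * x) with h2 | h2
        · nlinarith [mul_nonneg hy h2]
        · nlinarith [mul_nonneg (sub_nonneg.2 hy1) (neg_nonneg.2 h2.le)]
      nlinarith
    have h2 : (1 - x) ^ 2 * x * ((1 - y) * (x + y * (2 - 3 * x))) ≤ (1 - x) ^ 2 * x * x :=
      mul_le_mul_of_nonneg_left h1 hc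
    have h3 : (1 - x) ^ 2 * x * x ≤ 1 / 16 := by
      have h4 : 0 ≤ x * (1 - x) := mul_nonneg hx (by linarith)
      have h5 : x * (1 - x) ≤ 1 / 4 := by nlinarith [sq_nonneg (x - 1 / 2)]
      have h6 : (x * (1 - x)) * (x * (1 - x)) ≤ (1 / 4) * (1 / 4) :=
        mul_le_mul h5 h5 h4 (by norm_num)
      nlinarith
    linarith

lemma main_of_le {x y z : ℝ} (hx : 0 ≤ x) (hx1 : x ≤ 1) (hy : 0 ≤ y) (hy1 : y ≤ 1)
    (hz : 0 ≤ z) (hz1 : z ≤ 1 / 3) :
    (1 - x) * (1 - y) * (1 - z) * (x * y + x * z + y * z - 3 * (x * y * z)) ≤ 16 / 243 := by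
  have h := two_var (x := (x + y) / 2) (y := z) (by linarith) (by linarith) hz (by linarith)
  have hm : x * y ≤ ((x + y) / 2) ^ 2 := by nlinarith [sq_nonneg (x - y)]
  have h1 : (1 - x) * (1 - y) ≤ (1 - (x + y) / 2) ^ 2 := by nlinarith [sq_nonneg (x - y)]
  have h0 : 0 ≤ (1 - x) * (1 - y) := mul_nonneg (by linarith) (by linarith)
  have h2 : x * y + x * z + y * z - 3 * (x * y * z)
      ≤ ((x + y) / 2) ^ 2 + 2 * ((x + y) / 2) * z - 3 * ((x + y) / 2) ^ 2 * z := by
    nlinarith [mul_le_mul_of_nonneg_left hm (by linarith : (0:ℝ) ≤ 1 - 3 * z)]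
  have h3 : 0 ≤ ((x + y) / 2) ^ 2 + 2 * ((x + y) / 2) * z - 3 * ((x + y) / 2) ^ 2 * z := by
    have : 0 ≤ ((x + y) / 2) ^ 2 * (1 - 3 * z) := mul_nonneg (sq_nonneg _) (by linarith)
    have : 0 ≤ ((x + y) / 2) * z := mul_nonneg (by linarith) hz
    nlinarith
  have hz' : 0 ≤ 1 - z := by linarith
  calc (1 - x) * (1 - y) * (1 - z) * (x * y + x * z + y * z - 3 * (x * y * z))
      ≤ (1 - x) * (1 - y) * (1 - z) *
        (((x + y) / 2) ^ 2 + 2 * ((x + y) / 2) * z - 3 * ((x + y) / 2) ^ 2 * z) :=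
        mul_le_mul_of_nonneg_left h2 (mul_nonneg h0 hz')
    _ ≤ (1 - (x + y) / 2) ^ 2 * (1 - z) *
        (((x + y) / 2) ^ 2 + 2 * ((x + y) / 2) * z - 3 * ((x + y) / 2) ^ 2 * z) :=
        mul_le_mul_of_nonneg_right (mul_le_mul_of_nonneg_right h1 hz') h3
    _ ≤ 16 / 243 := h

lemma main_ineq {x y z : ℝ} (hx : 0 ≤ x) (hx1 : x ≤ 1) (hy : 0 ≤ y) (hy1 : y ≤ 1)
    (hz : 0 ≤ z) (hz1 : z ≤ 1) :
    (1 - x) * (1 - y) * (1 - z) * (x * y + x * z + y * z - 3 * (x * y * z)) ≤ 16 / 243 := by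
  rcases le_or_gt z (1 / 3) with h | h
  · exact main_of_le hx hx1 hy hy1 hz h
  rcases le_or_gt y (1 / 3) with h' | h'
  · have := main_of_le hx hx1 hz hz1 hy h'
    calc _ = (1 - x) * (1 - z) * (1 - y) * (x * z + x * y + z * y - 3 * (x * z * y)) := by ring
      _ ≤ _ := this
  rcases le_or_gt x (1 / 3) with h'' | h''
  · have := main_of_le hy hy1 hz hz1 hx h''
    calc _ = (1 - y) * (1 - z) * (1 - x) * (y * z + y * x + z * x - 3 * (y * z * x)) := by ring
      _ ≤ _ := this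
  have h3 := main_of_le hx hx1 hy hy1 (by norm_num : (0:ℝ) ≤ 1 / 3) (le_refl _)
  have h0 : 0 ≤ (1 - x) * (1 - y) := mul_nonneg (by linarith) (by linarith)
  have hkey : (x + y - 3 * (x * y)) * (2 / 3 - z) ≤ x * y := by
    have ha : x ≤ 3 * (x * y) := by nlinarith
    have hb : y ≤ 3 * (x * y) := by nlinarith
    rcases le_or_gt 0 (x + y - 3 * (x * y)) with ht | ht
    · nlinarith [mul_nonneg ht (sub_nonneg.2 h.le)]
    · nlinarith [mul_nonneg (neg_nonneg.2 ht.le) (sub_nonneg.2 hz1), mul_nonneg hx hy]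
  have hg : (1 - z) * (x * y + x * z + y * z - 3 * (x * y * z))
      ≤ (1 - 1 / 3) * (x * y + x * (1 / 3) + y * (1 / 3) - 3 * (x * y * (1 / 3))) := by
    nlinarith [mul_nonneg (sub_nonneg.2 h.le) (sub_nonneg.2 hkey)]
  calc (1 - x) * (1 - y) * (1 - z) * (x * y + x * z + y * z - 3 * (x * y * z))
      = (1 - x) * (1 - y) * ((1 - z) * (x * y + x * z + y * z - 3 * (x * y * z))) := by ring
    _ ≤ (1 - x) * (1 - y) *
        ((1 - 1 / 3) * (x * y + x * (1 / 3) + y * (1 / 3) - 3 * (x * y * (1 / 3)))) :=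
        mul_le_mul_of_nonneg_left hg h0
    _ = (1 - x) * (1 - y) * (1 - 1 / 3) *
        (x * y + x * (1 / 3) + y * (1 / 3) - 3 * (x * y * (1 / 3))) := by ring
    _ ≤ 16 / 243 := h3

lemma zero_ineq {x y : ℝ} (hx : 0 ≤ x) (hx1 : x ≤ 1) (hy : 0 ≤ y) (hy1 : y ≤ 1) :
    (1 - x) * (1 - y) * (x * y) ≤ 1 / 16 := by
  have h1 : x * (1 - x) ≤ 1 / 4 := by nlinarith [sq_nonneg (x - 1 / 2)]
  have h2 : y * (1 - y) ≤ 1 / 4 := by nlinarith [sq_nonneg (y - 1 / 2)]
  have h3 : 0 ≤ y * (1 - y) := mul_nonneg hy (by linarith)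
  have h4 : (x * (1 - x)) * (y * (1 - y)) ≤ (1 / 4) * (1 / 4) :=
    mul_le_mul h1 h2 h3 (by norm_num)
  nlinarith

/-! ### Upper bounds for the likelihood -/

lemma likelihood_training (p : Finset (Fin 3) → ℝ) :
    likelihood p training = p ∅ ^ 3 * (p {0, 1} * p {0, 2} * p {1, 2}) := by
  simp only [likelihood, training, List.map_cons, List.map_nil, List.prod_cons, List.prod_nil]
  ring

lemma likelihood_le_of {p : Finset (Fin 3) → ℝ} (hp : ∀ S, 0 ≤ p S) {c : ℝ}
    (h : p ∅ * (p {0, 1} + p {0, 2} + p {1, 2}) ≤ c) :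
    likelihood p training ≤ (c / 3) ^ 3 := by
  rw [likelihood_training]
  have ha := amgm3 (hp {0, 1}) (hp {0, 2}) (hp {1, 2})
  have h0 := hp ∅
  have hq : 0 ≤ p {0, 1} + p {0, 2} + p {1, 2} :=
    add_nonneg (add_nonneg (hp _) (hp _)) (hp _)
  have h1 : (p ∅ * (p {0, 1} + p {0, 2} + p {1, 2})) ^ 3 ≤ c ^ 3 :=
    pow_le_pow_left₀ (mul_nonneg h0 hq) h 3
  have h2 : p ∅ ^ 3 * (27 * (p {0, 1} * p {0, 2} * p {1, 2}))
      ≤ p ∅ ^ 3 * (p {0, 1} + p {0, 2} + p {1, 2}) ^ 3 :=
    mul_le_mul_of_nonneg_left ha (pow_nonneg h0 3)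
  rw [mul_pow] at h1
  rw [div_pow]
  linarith

lemma likelihood_le {K : Matrix (Fin 3) (Fin 3) ℝ} {p : Finset (Fin 3) → ℝ}
    (hK : IsMarginalKernel K) (hp : IsDPPLaw K p) :
    likelihood p training ≤ (16 / 729) ^ 3 := by
  obtain ⟨_, h, hl⟩ := hK
  obtain ⟨x, y, z, rfl, rfl, rfl, e0, eq, _⟩ := law_values hp h
  have hm := main_ineq (hl 0).1 (hl 0).2 (hl 1).1 (hl 1).2 (hl 2).1 (hl 2).2
  rw [← e0, ← eq] at hm
  have := likelihood_le_of hp.nonneg hm
  calc _ ≤ _ := this
    _ = _ := by norm_num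

lemma likelihood_le_of_det_eq_zero {K : Matrix (Fin 3) (Fin 3) ℝ} {p : Finset (Fin 3) → ℝ}
    (hK : IsMarginalKernel K) (hp : IsDPPLaw K p) (hdet : K.det = 0) :
    likelihood p training ≤ (1 / 48) ^ 3 := by
  obtain ⟨_, h, hl⟩ := hK
  obtain ⟨x, y, z, hx, hy, hz, e0, eq, ed⟩ := law_values hp h
  have bx : 0 ≤ x ∧ x ≤ 1 := by rw [hx]; exact hl 0
  have bY : 0 ≤ y ∧ y ≤ 1 := by rw [hy]; exact hl 1
  have bz : 0 ≤ z ∧ z ≤ 1 := by rw [hz]; exact hl 2
  have hm : p ∅ * (p {0, 1} + p {0, 2} + p {1, 2}) ≤ 1 / 16 := by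
    rw [e0, eq]
    rw [hdet] at ed
    have h3 : x = 0 ∨ y = 0 ∨ z = 0 := by
      rcases mul_eq_zero.1 ed.symm with h | h
      · rcases mul_eq_zero.1 h with h | h
        · exact Or.inl h
        · exact Or.inr (Or.inl h)
      · exact Or.inr (Or.inr h)
    rcases h3 with h | h | h
    · rw [h]
      have := zero_ineq bY.1 bY.2 bz.1 bz.2
      calc _ = (1 - y) * (1 - z) * (y * z) := by ring
        _ ≤ _ := this
    · rw [h]
      have := zero_ineq bx.1 bx.2 bz.1 bz.2
      calc _ = (1 - x) * (1 - z) * (x * z) := by ring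
        _ ≤ _ := this
    · rw [h]
      have := zero_ineq bx.1 bx.2 bY.1 bY.2
      calc _ = (1 - x) * (1 - y) * (x * y) := by ring
        _ ≤ _ := this
  have := likelihood_le_of hp.nonneg hm
  calc _ ≤ _ := this
    _ = _ := by norm_num

/-! ### The kernel `(1/3) I` -/

/-- The kernel `(1/3) I`. -/
noncomputable def K0 : Matrix (Fin 3) (Fin 3) ℝ := (1 / 3 : ℝ) • (1 : Matrix (Fin 3) (Fin 3) ℝ)

/-- The law of `K0`: each point is present independently with probability `1/3`. -/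
noncomputable def p0 (S : Finset (Fin 3)) : ℝ := ((2 ^ (3 - S.card) : ℕ) : ℝ) / 27

lemma count_filter : ∀ S : Finset (Fin 3),
    ∑ T ∈ univ.filter (fun T => S ⊆ T), 2 ^ (3 - T.card) = 3 ^ (3 - S.card) := by decide

lemma K0_law : IsDPPLaw K0 p0 := by
  have hincl : ∀ S : Finset (Fin 3), ∑ T ∈ univ.filter (fun T => S ⊆ T), p0 T
      = ((3 ^ (3 - S.card) : ℕ) : ℝ) / 27 := by
    intro S
    rw [← count_filter S]
    simp only [p0]
    rw [← Finset.sum_div, Nat.cast_sum]
  have hdet : ∀ S : Finset (Fin 3), (principal K0 S).det = (1 / 3 : ℝ) ^ S.card := by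
    intro S
    have : principal K0 S = (1 / 3 : ℝ) • (1 : Matrix {x // x ∈ S} {x // x ∈ S} ℝ) := by
      unfold principal K0
      rw [Matrix.submatrix_smul]
      simp only [Pi.smul_apply]
      rw [Matrix.submatrix_one _ Subtype.val_injective]
    rw [this, Matrix.det_smul, Matrix.det_one, mul_one, Fintype.card_coe]
  refine ⟨fun S => by unfold p0; positivity, ?_, fun S => ?_⟩
  · have h := hincl ∅
    simp at h
    rw [h]
  · rw [hincl, hdet]
    have hc : S.card ≤ 3 := by simpa using Finset.card_le_univ S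
    have : ((3 ^ (3 - S.card) : ℕ) : ℝ) * 3 ^ S.card = 27 := by
      push_cast
      rw [← pow_add, Nat.sub_add_cancel hc]
      norm_num
    rw [one_div, inv_pow, div_eq_iff (by norm_num), ← this]
    field_simp

lemma K0_marginal : IsMarginalKernel K0 := by
  have hps : K0.PosSemidef := by
    unfold K0
    exact Matrix.PosSemidef.one.smul (by norm_num)
  refine ⟨hps, hps.isHermitian, fun i => ?_⟩
  have hv := hps.isHermitian.mulVec_eigenvectorBasis i
  have h1 : hps.isHermitian.eigenvalues i = 1 / 3 := by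
    have hne : (⇑(hps.isHermitian.eigenvectorBasis i) : Fin 3 → ℝ) ≠ 0 := by
      intro h0
      have hn := hps.isHermitian.eigenvectorBasis.orthonormal.1 i
      have : hps.isHermitian.eigenvectorBasis i = 0 := by
        ext j
        exact congrFun h0 j
      rw [this] at hn
      simp at hn
    have hK : K0 *ᵥ (⇑(hps.isHermitian.eigenvectorBasis i) : Fin 3 → ℝ)
        = (1 / 3 : ℝ) • (⇑(hps.isHermitian.eigenvectorBasis i) : Fin 3 → ℝ) := by
      unfold K0
      rw [Matrix.smul_mulVec, Matrix.one_mulVec]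
    rw [hK] at hv
    have h2 := sub_eq_zero.2 hv
    rw [← sub_smul] at h2
    rcases smul_eq_zero.1 h2 with h3 | h3
    · linarith
    · exact absurd h3 hne
  rw [h1]
  norm_num

lemma K0_likelihood : likelihood p0 training = (16 / 729) ^ 3 := by
  rw [likelihood_training]
  have h0 : p0 ∅ = 8 / 27 := by norm_num [p0]
  have h1 : p0 {0, 1} = 2 / 27 := by
    have : ({0, 1} : Finset (Fin 3)).card = 2 := by decide
    simp [p0, this]
  have h2 : p0 {0, 2} = 2 / 27 := by
    have : ({0, 2} : Finset (Fin 3)).card = 2 := by decide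
    simp [p0, this]
  have h3 : p0 {1, 2} = 2 / 27 := by
    have : ({1, 2} : Finset (Fin 3)).card = 2 := by decide
    simp [p0, this]
  rw [h0, h1, h2, h3]
  norm_num

lemma K0_optimal : IsOptimal K0 training :=
  ⟨K0_marginal, p0, K0_law, fun K' p' hK' hp' => by
    rw [K0_likelihood]; exact likelihood_le hK' hp'⟩

lemma rank_of_optimal {K : Matrix (Fin 3) (Fin 3) ℝ} (hK : IsOptimal K training) :
    K.rank = 3 := by
  obtain ⟨hm, p, hp, hopt⟩ := hK
  have h1 := hopt K0 p0 K0_marginal K0_law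
  rw [K0_likelihood] at h1
  have hdet : K.det ≠ 0 := by
    intro h0
    have h2 := likelihood_le_of_det_eq_zero hm hp h0
    have : ((16 : ℝ) / 729) ^ 3 ≤ (1 / 48) ^ 3 := le_trans h1 h2
    norm_num at this
  have := Matrix.rank_of_isUnit K ((Matrix.isUnit_iff_isUnit_det K).2 (isUnit_iff_ne_zero.2 hdet))
  simpa using this

/-- **Result.** The assertion that for every `k ≥ 1`, every `N` and every training set of subsets of
`[N]` of cardinality at most `k`, every optimal marginal kernel has rank at most `k`, is false.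
Explicitly, for the training set `training` on a three-point ground set, whose members all have
at most two elements, an optimal marginal kernel exists and every optimal marginal kernel has
rank exactly three. -/
theorem result :
    (¬ ∀ k : ℕ, 1 ≤ k → ∀ (N : ℕ) (X : List (Finset (Fin N))), (∀ S ∈ X, S.card ≤ k) →
      ∀ K : Matrix (Fin N) (Fin N) ℝ, IsOptimal K X → K.rank ≤ k) ∧
    (∀ S ∈ training, S.card ≤ 2) ∧
    (∃ K : Matrix (Fin 3) (Fin 3) ℝ, IsOptimal K training) ∧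
    (∀ K : Matrix (Fin 3) (Fin 3) ℝ, IsOptimal K training → K.rank = 3) := by
  have hc : ∀ S ∈ training, S.card ≤ 2 := by decide
  refine ⟨fun h => ?_, hc, ⟨K0, K0_optimal⟩, fun K hK => rank_of_optimal hK⟩
  have := h 2 (by norm_num) 3 training hc K0 K0_optimal
  rw [rank_of_optimal K0_optimal] at this
  omega

end Pool.Agent.Results.MP_dbbe21_pr.RankOfOptimalKernels
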